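import Pool.Agent.W2helper2.AK.Main

/-!
# Extensions with algebraic kernels and the Farrell–Jones conjecture

`C` is any class of groups with the closure properties `ClosedE C` which contains all solvable groups
and the groups `GL_m(K₀)` for a field `K₀`. By published theorems the class of the groups whose finite
wreath products satisfy the K-theoretic Farrell–Jones conjecture with coefficients is such a class for
`K₀ = ℚ` and for `K₀ = F_q(t)` (solvable groups: Wegner; `GL_m`: Rüping), and for all finite `K₀`. For
torsion-free groups `G` in this class `Wh(G)`, the reduced projective class group of `ℤG` and the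
negative K-groups of `ℤG` vanish.

Let `K` be an algebraic extension of `K₀`, and let `N` be a normal subgroup of `G` with an embedding
`ρ` in `GL_n(K)`; no condition on the image (for instance the group of the `K`-points of any linear
algebraic group, connected or not, reductive or not). Suppose that each `g` in `G` of infinite order
modulo `N` acts on `N` by a semialgebraic automorphism: for some automorphism `σ` of `K` over `K₀` the
entries of the matrix of `g x g⁻¹` are polynomials, with coefficients in `K`, in the images under `σ` of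
the entries of the matrices of `x` and `x⁻¹`, for all `x` in `N`, and the same is true for `g⁻¹` and
`σ⁻¹`. (`SemiAlgebraic`; for `σ = 1` this says that the conjugation extends to an automorphism of the
Zariski closure.) If `G ⧸ N` is in `C` then `G` is in `C`.

Let for example `X` be a projective variety over the field `K` of algebraic numbers (or over a number
field). The group `Aut X` has a normal series `1 ≤ L(K) ≤ A(K) ≤ Aut X`, where `A` is the connected
component of the automorphism group scheme and `L` its largest connected linear subgroup. The group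
`Aut X` acts on `L(K)` by algebraic automorphisms, `A(K) / L(K)` is abelian (Chevalley), and the quotient
`Aut X / A(K)` acts on the Néron–Severi group with finite kernel, so it is in `C`. So every group of
automorphisms of `X` is in `C`. Other examples are the extensions whose kernel is the group of the
rational points of a parabolic subgroup, or of any connected linear algebraic group with infinitely
many outer automorphisms, and for isotropic simple groups all extensions (Borel, Tits).

Outline of the proof. Let `A` be the `K`-algebra of functions on `N` generated by the entries of `ρ x`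
and `ρ x⁻¹`, and `𝔪` the ideal of the functions which vanish at the identity. The group `N ⟨g⟩` acts
semilinearly on `A` and on the finite dimensional spaces `A / 𝔪 ^ k` of jets at the identity. The elements
of `N` which act trivially on `A / 𝔪 ^ k` form a closed set, so there is a `k` such that they act trivially
on all jets. By Krull's intersection theorem they commute with the elements of an open neighbourhood
of the identity, so their centralizers have finite index. In a linear group the elements with this
property form a virtually abelian group. So up to a virtually abelian normal subgroup, `N ⟨g⟩` embeds in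
a semilinear group, and finitely generated subgroups of the latter in `GL_m(K₀) × ℤ`.
-/

set_option autoImplicit false

namespace Pool.Agent.Results.MP_16fe43_al.AlgebraicKernels

open Pool.Agent.Y110.FJ (ClosedE)

/-- `α` is given by polynomials in the conjugates under `σ` of the matrix entries of `x` and `x⁻¹`. -/
def SemiAlgebraic {K₀ K N : Type} [Field K₀] [Field K] [Algebra K₀ K] [Group N] {n : ℕ}
    (ρ : N →* GL (Fin n) K) (σ : K ≃ₐ[K₀] K) (α : N → N) : Prop :=
  ∀ i j : Fin n, ∃ P : MvPolynomial ((Fin n × Fin n) ⊕ (Fin n × Fin n)) K, ∀ x : N,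
    (ρ (α x) : Matrix (Fin n) (Fin n) K) i j = MvPolynomial.eval
      (Sum.elim (fun p => σ ((ρ x : Matrix (Fin n) (Fin n) K) p.1 p.2))
        (fun p => σ ((ρ x⁻¹ : Matrix (Fin n) (Fin n) K) p.1 p.2))) P

open Pool.Agent.W2helper2.AK in
theorem tw_of {K₀ K N : Type} [Field K₀] [Field K] [Algebra K₀ K] [Group N] {n : ℕ}
    (ρ : N →* GL (Fin n) K) (σ τ : K ≃ₐ[K₀] K) (hτ : ∀ c, τ (σ c) = c) (α : N ≃* N)
    (h : SemiAlgebraic ρ σ α) (f : N → K) (hf : f ∈ CR ρ) : (fun x => τ (f (α x))) ∈ CR ρ := by
  -- the entries
  have h1 : ∀ i j : Fin n, (fun x => τ ((ρ (α x) : Matrix (Fin n) (Fin n) K) i j)) ∈ CR ρ := by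
    intro i j
    obtain ⟨P, hP⟩ := h i j
    have h2 : (fun x => τ ((ρ (α x) : Matrix (Fin n) (Fin n) K) i j)) =
        MvPolynomial.aeval (ent ρ) (MvPolynomial.map (τ : K →+* K) P) := by
      funext x
      rw [hP]
      have h3 : (Pi.evalAlgHom K (fun _ : N => K) x) (MvPolynomial.aeval (ent ρ)
          (MvPolynomial.map (τ : K →+* K) P)) =
          MvPolynomial.aeval (fun s => ent ρ s x) (MvPolynomial.map (τ : K →+* K) P) :=
        MvPolynomial.comp_aeval_apply _ (Pi.evalAlgHom K (fun _ : N => K) x) _
      have h4 : MvPolynomial.aeval (ent ρ) (MvPolynomial.map (τ : K →+* K) P) x =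
          MvPolynomial.eval (fun s => ent ρ s x) (MvPolynomial.map (τ : K →+* K) P) := h3
      rw [h4, MvPolynomial.eval_map]
      have h5 : (τ : K →+* K) (MvPolynomial.eval
          (Sum.elim (fun p => σ ((ρ x : Matrix (Fin n) (Fin n) K) p.1 p.2))
            (fun p => σ ((ρ x⁻¹ : Matrix (Fin n) (Fin n) K) p.1 p.2))) P) =
          MvPolynomial.eval₂ (τ : K →+* K) (fun s => (τ : K →+* K) (Sum.elim
            (fun p => σ ((ρ x : Matrix (Fin n) (Fin n) K) p.1 p.2))
            (fun p => σ ((ρ x⁻¹ : Matrix (Fin n) (Fin n) K) p.1 p.2)) s)) P :=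
        MvPolynomial.eval₂_comp_left (τ : K →+* K) (RingHom.id K) _ P
      refine (show τ _ = _ from h5).trans ?_
      congr 1
      funext s
      rcases s with p | p
      · exact hτ _
      · exact hτ _
    rw [h2, CR, Algebra.adjoin_range_eq_range_aeval]
    exact ⟨_, rfl⟩
  unfold CR at hf
  induction hf using Algebra.adjoin_induction with
  | mem f hf =>
    obtain ⟨s, rfl⟩ := hf
    rcases s with p | p
    · exact h1 p.1 p.2
    · have h2 := inv_mem ρ (h1 p.1 p.2)
      have h3 : (fun x => τ (ent ρ (Sum.inr p) (α x))) =
          fun x => (fun x => τ ((ρ (α x) : Matrix (Fin n) (Fin n) K) p.1 p.2)) x⁻¹ := by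
        funext x
        show τ ((ρ (α x)⁻¹ : Matrix (Fin n) (Fin n) K) p.1 p.2) =
          τ ((ρ (α x⁻¹) : Matrix (Fin n) (Fin n) K) p.1 p.2)
        rw [map_inv α x]
      rw [h3]
      exact h2
  | algebraMap r => exact (CR ρ).algebraMap_mem (τ r)
  | add f g _ _ hf hg =>
    have h2 : (fun x => τ ((f + g) (α x))) = (fun x => τ (f (α x))) + fun x => τ (g (α x)) := by
      funext x
      exact map_add _ _ _
    rw [h2]
    exact (CR ρ).add_mem hf hg
  | mul f g _ _ hf hg =>
    have h2 : (fun x => τ ((f * g) (α x))) = (fun x => τ (f (α x))) * fun x => τ (g (α x)) := by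
      funext x
      exact map_mul _ _ _
    rw [h2]
    exact (CR ρ).mul_mem hf hg

/-- **Extensions with algebraic kernels.** -/
theorem result (C : ∀ (G : Type) [Group G], Prop) (hC : ClosedE C)
    (hS : ∀ (G : Type) [Group G], Group.IsSolvable G → C G)
    (K₀ K : Type) [Field K₀] [Field K] [Algebra K₀ K] [Algebra.IsAlgebraic K₀ K]
    (hK : ∀ m, C (GL (Fin m) K₀)) (G : Type) [Group G] (N : Subgroup G) [hN : N.Normal]
    (n : ℕ) (ρ : N →* GL (Fin n) K) (hρ : Function.Injective ρ)
    (hg : ∀ g : G, (∀ m : ℕ, 0 < m → g ^ m ∉ N) → ∃ σ : K ≃ₐ[K₀] K,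
      SemiAlgebraic ρ σ (fun x => ⟨g * x * g⁻¹, hN.conj_mem x x.2 g⟩) ∧
      SemiAlgebraic ρ σ.symm (fun x => ⟨g⁻¹ * x * g⁻¹⁻¹, hN.conj_mem x x.2 g⁻¹⟩))
    (hQ : C (G ⧸ N)) : C G := by
  refine Pool.Agent.W2helper2.AK.main ρ hC hS hK hρ (fun g hinf => ?_) hQ
  obtain ⟨σ, h1, h2⟩ := hg g hinf
  refine ⟨σ, ?_, ?_⟩
  · intro f hf
    have h3 := tw_of ρ σ.symm σ (fun c => σ.apply_symm_apply c) (MulAut.conjNormal g⁻¹) (by
      intro i j
      exact h2 i j) f hf
    have h4 : Pool.Agent.W2helper2.AK.tw σ
        ((Multiplicative.ofAdd 1, MulAut.conjNormal g) : Multiplicative ℤ × MulAut N) f =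
        fun x => σ (f (MulAut.conjNormal g⁻¹ x)) := by
      funext x
      show (σ ^ (1 : ℤ)) (f ((MulAut.conjNormal g)⁻¹ x)) = _
      rw [zpow_one, map_inv]
    rw [h4]
    exact h3
  · intro f hf
    have h3 := tw_of ρ σ σ.symm (fun c => σ.symm_apply_apply c) (MulAut.conjNormal g) (by
      intro i j
      exact h1 i j) f hf
    have h4 : Pool.Agent.W2helper2.AK.tw σ
        ((Multiplicative.ofAdd 1, MulAut.conjNormal g) : Multiplicative ℤ × MulAut N)⁻¹ f =
        fun x => σ.symm (f (MulAut.conjNormal g x)) := by
      funext x
      show (σ ^ (-1 : ℤ)) (f (((MulAut.conjNormal g)⁻¹)⁻¹ x)) = _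
      rw [zpow_neg_one, inv_inv]
      rfl
    rw [h4]
    exact h3

end Pool.Agent.Results.MP_16fe43_al.AlgebraicKernels
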