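import Pool.Agent.W2helper34.UR.Main

/-!
# Unitary groups over noncommutative graded rings and the Farrell–Jones conjecture

`C` is a class of groups with the closure properties `ClosedE C` which contains the solvable groups. By
published theorems the class of the groups whose wreath products with finite groups satisfy the
K-theoretic Farrell–Jones conjecture with coefficients is such a class (for solvable groups: Wegner), and
the conjecture of Q1 holds for all torsion-free groups in it.

Theorem. Let `R = R_0 ⊕ R_1 ⊕ R_2 ⊕ …` be a graded ring with an involution, not necessarily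
commutative, which embeds in a division ring `K` with involution, `2 ≠ 0` in `K`. Let `A` be an
`n × n` matrix over `R_0` which is hermitian or skew-hermitian, invertible over `K`, and has Witt index
at most one over `K`: two isotropic vectors which are orthogonal to each other are dependent. If the
unitary group `U_A(R_0)` is in `C`, then the unitary group `U_A(R) = {g : g A g* = A}` is in `C`.

There is no finiteness condition. If `R_0` is an order in a division algebra `D` of finite dimension
over `ℚ`, then `U_A(R_0)` is an arithmetic group, and it is in `C` for the Farrell–Jones class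
(Bartels, Lück, Reich and Rüping). So Wh(G), the reduced projective class group of `ℤG` and the negative
K-groups of `ℤG` vanish for all torsion-free subgroups `G` of the groups `U_A(R)`, for instance for
`R = R_0[x_1, …, x_m]` and for the free rings `R = R_0⟨X⟩`, where the variables are fixed by the
involution and commute with `R_0`: the groups `Sp(n, 1)` over `H[x_1, …, x_m]` and `H⟨X⟩` for the ring
`H` of the integral quaternions, `U(n, 1)` over `ℤ[i]⟨X⟩`, and the orthogonal groups of forms of Witt
index one over `ℤ⟨X⟩`.

Outline of the proof. Sending `r = ∑ r_i` to `∑ r_i X ^ i` embeds `R` in `K[X]`, where the variable `X` is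
central and fixed by the involution. The involution extends to the division ring of fractions `F` of
`K[X]`, and the degree is minus a discrete valuation of `F`. The self-dual lattices `S` in the hermitian
space `F ^ n` and their sublattices `{v ∈ S : h(v, w) ∈ 𝔪}`, where `w` is a primitive isotropic vector
of `S`, are the vertices of a tree (`PL.isTree`); this is the Bruhat–Tits tree, which is constructed
here over division rings. The elements of a vertex stabilizer in `U_A(R)` have bounded degree, so that the
stabilizer has no kernel under the reduction of `R` modulo the elements of degree `> k` for large `k`. The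
image of `U_A(R)` under this reduction is an extension of a subgroup of `U_A(R_0)` by a nilpotent group,
which is in `C` by the closure properties. The criterion `Pool.Agent.N24.TR.tree_local` for groups acting
on trees completes the proof. If the form is anisotropic over `K`, the elements of `U_A(R)` have degree
zero.
-/

set_option autoImplicit false

namespace Pool.Agent.Results.MP_16fe43_al.GradedUnitaryGroups

open Pool.Agent.Y110.FJ (ClosedE)
open Pool.Agent.W2helper34.UR (UA UA0)
open Matrix

theorem result (C : ∀ (G : Type) [Group G], Prop) (hC : ClosedE C)
    (hS : ∀ (G : Type) [Group G], Group.IsSolvable G → C G)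
    {R σ : Type} [Ring R] [StarRing R] [SetLike σ R] [AddSubgroupClass σ R] (𝒜 : ℕ → σ)
    [GradedRing 𝒜] (hstar : ∀ i, ∀ r ∈ 𝒜 i, star r ∈ 𝒜 i)
    {K : Type} [DivisionRing K] [StarRing K] (h2 : (2 : K) ≠ 0)
    (ι : R →+* K) (hι : Function.Injective ι) (hιs : ∀ r, ι (star r) = star (ι r))
    {n : ℕ} (A : Matrix (Fin n) (Fin n) R) (hA0 : ∀ i j, A i j ∈ 𝒜 0) (hA : Aᴴ = A ∨ Aᴴ = -A)
    (hunit : IsUnit (A.map ι))
    (hW : ∀ x y : Fin n → K, (x ᵥ* A.map ι) ⬝ᵥ star x = 0 → (y ᵥ* A.map ι) ⬝ᵥ star y = 0 →
      (x ᵥ* A.map ι) ⬝ᵥ star y = 0 → ∃ a b : K, (a ≠ 0 ∨ b ≠ 0) ∧ a • x + b • y = 0)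
    (h0 : C (UA0 𝒜 A)) : C (UA A) :=
  Pool.Agent.W2helper34.UR.graded_unitary 𝒜 hstar ι hι hιs A hC hS h2 hA0 hA hunit hW h0

end Pool.Agent.Results.MP_16fe43_al.GradedUnitaryGroups
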