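import Pool.Agent.W2helper35.CY.Theta

set_option autoImplicit false

/-!
# Cyclic cocycles and the K-theory of groups of piecewise analytic homeomorphisms of the circle

Let `Γ` be a torsion-free group of orientation preserving piecewise real analytic homeomorphisms of
the circle (for instance a torsion-free group of analytic diffeomorphisms), or, more generally, a
group such that all elements `≠ 1` of its finitely generated subgroups `H` are detected by an action
of a subgroup of finite index of `H` on the circle or on the line by orientation preserving
homeomorphisms such that the fixed points do not accumulate, except by intervals of fixed points.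

Then for every commutative ring `k` no class of `K₀(kΓ)` and no class of `K₁(kΓ)` is detected by
cyclic cocycles away from the identity: the pairings of all idempotent, and of all invertible matrices
over `kΓ` with the (normalised, in the odd case) cyclic cocycles of `Γ` of all degrees, with values in
rational vector spaces on which `k` acts, vanish, provided that the cocycle vanishes at the tuples with
product `1`. (For `k = ℤ` the pairings with the integral group cocycles, that is, at the tuples with
product `1`, are the subject of the starting results `CocyclePairing` and `OddCocyclePairing`.)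

Idea of the proof. For every element `c ≠ 1` of such a group there is a homomorphism from its
centralizer to `ℝ` which does not vanish at `c`: if the rotation number of `c` is irrational, it is
given by the displacement in a coordinate in which `c` is a rotation, which is constant for every
element of the centralizer; otherwise by Hölder's theorem for the germs at a fixed point of a power of
`c` and the transfer. These homomorphisms give weights to the factors of the words with product
conjugate to `c`. The weights are a commutator with a new variable `t`, and a short computation with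
`e`, `s`, `t` (`s` separates the arguments of the cocycle) shows that the weighted pairing vanishes;
the sum of the weighted pairings over the places is the pairing.
-/

namespace Pool.Agent.Results.MP_16fe43_al.PiecewiseAnalytic

open Pool.Agent.W2helper35.TM (PiecewiseAnalytic Detected)
open Pool.Agent.W2helper35.CY (CyclicCocycle pairing oddPairing)

universe u v w x

/-- No idempotent and no invertible matrix over the group algebra of `Γ` over any commutative ring
pairs nontrivially with a cyclic cocycle which vanishes at the tuples with product `1`. -/
def Undetected (Γ : Type u) [Group Γ] : Prop :=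
  ∀ (k : Type w) [CommRing k] (M : Type v) [AddCommGroup M] [Module k M] [Module ℚ M]
    (d : Type x) [Fintype d] [DecidableEq d] (n : ℕ) (ψ : List Γ → M),
    (∀ l : List Γ, l.prod = 1 → ψ l = 0) →
      (CyclicCocycle (2 * n) ψ → ∀ e : Matrix d d (MonoidAlgebra k Γ), e * e = e →
        pairing ψ (2 * n) e = 0) ∧
      (CyclicCocycle (2 * n + 1) ψ → (∀ l l' : List Γ, ψ (l ++ 1 :: l') = 0) →
        ∀ u v : Matrix d d (MonoidAlgebra k Γ), u * v = 1 → v * u = 1 → oddPairing ψ n u v = 0)

/-- `ρ` gives lifts to the line of a faithful action of `Γ` on the circle `ℝ/ℤ` by orientation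
preserving piecewise real analytic homeomorphisms. -/
def AnalyticAction {Γ : Type u} [Group Γ] (ρ : Γ → (ℝ ≃o ℝ)) : Prop :=
  (∀ x t, ρ x (t + 1) = ρ x t + 1) ∧
  (∀ x y, ∃ k : ℤ, ∀ t, ρ (x * y) t = ρ x (ρ y t) + k) ∧
  (∀ x, PiecewiseAnalytic (ρ x)) ∧
  (∀ x, (∃ k : ℤ, ∀ t, ρ x t = t + k) → x = 1)

theorem result :
    (∀ (Γ : Type u) [Group Γ],
      (∀ H : Subgroup Γ, H.FG → ∀ h : H, h ≠ 1 → Detected H h) → Undetected.{u, v, w, x} Γ) ∧
    (∀ (Γ : Type u) [Group Γ] (ρ : Γ → (ℝ ≃o ℝ)), AnalyticAction ρ →
      (∀ g : Γ, g ≠ 1 → ¬ IsOfFinOrder g) → Undetected.{u, v, w, x} Γ) := by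
  have key : ∀ (Γ : Type u) [Group Γ],
      (∀ H : Subgroup Γ, H.FG → ∀ h : H, h ≠ 1 → Detected H h) → Undetected.{u, v, w, x} Γ := by
    intro Γ _ hΓ k _ M _ _ _ d _ _ n ψ h0
    exact ⟨fun C e he => Pool.Agent.W2helper35.CY.even_detected hΓ C h0 e he,
      fun C hψ u v huv hvu => Pool.Agent.W2helper35.CY.odd_detected hΓ C h0 hψ u v huv hvu⟩
  refine ⟨key, ?_⟩
  rintro Γ _ ρ ⟨h1, h2, h3, h4⟩ htf
  apply key
  intro H _ h hh
  refine Pool.Agent.W2helper35.TM.detected_of_circle
    (Pool.Agent.W2helper35.TM.circleAction_of_analytic h1 h2 h3) h4 H h ?_
  intro h5
  apply htf (h : Γ) (fun h6 => hh (Subtype.ext h6))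
  rw [isOfFinOrder_iff_pow_eq_one] at h5 ⊢
  obtain ⟨n, hn, h6⟩ := h5
  exact ⟨n, hn, by rw [← Subgroup.coe_pow, h6]; rfl⟩

end Pool.Agent.Results.MP_16fe43_al.PiecewiseAnalytic
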