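import Pool.Agent.W2helper25.PA.Pair

set_option autoImplicit false

/-!
# Cyclic cocycles and the K-theory of groups of local similarities and of p-adic analytic groups

Let `Γ` be a torsion-free group. Suppose that `Γ` acts faithfully by local similarities on a compact
ultrametric space without isolated points such that the germs of the elements which preserve a ball
isometrically have finite order (for instance, that `Γ` is a subgroup of the Röver–Nekrashevych group
of a self-similar torsion group); or that `Γ` acts faithfully by homeomorphisms which are locally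
given by convergent power series on a compact open subset of `ℚ_p`; or, more generally, that all
elements `c ≠ 1` of its finitely generated subgroups `H` are detected by an action of a subgroup `N`
of finite index of `H` on a compact ultrametric space: by local similarities such that a power of `c`
in `N` has unbounded local factors, or by locally analytic homeomorphisms of a compact open subset of
`ℚ_p`, for some `p`, such that no positive power of `c` in `N` acts trivially.

Then for every commutative ring `k` no class of `K₀(kΓ)` and no class of `K₁(kΓ)` is detected by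
cyclic cocycles away from the identity: the pairings of all idempotent, and of all invertible matrices
over `kΓ` with the (normalised, in the odd case) cyclic cocycles of `Γ` of all degrees, with values in
rational vector spaces on which `k` acts, vanish, provided that the cocycle vanishes at the tuples with
product `1`.

Idea of the proof. For every element `c ≠ 1` of such a group there is a homomorphism from its
centralizer `C` to `ℝ` which does not vanish at `c`. If the powers of `c` have unbounded local factors,
then `c` or its inverse has attracting periodic points; there are only finitely many of them, they are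
permuted by `C`, and the sum of the logarithms of the local factors at these points is such a
homomorphism. Otherwise we are in the analytic case, and a power `d` of `c` satisfies
`‖(d y - d x) - (y - x)‖ ≤ p⁻² ‖y - x‖` at small distances, which implies
`‖d ^ n x - x‖ = ‖n‖ ‖d x - x‖`. There are only finitely many fixed points of `d` near which `d` is
not the identity; the derivatives at such a point, or, if `d` is tangent to the identity there, the
leading coefficients of the displacements, give a homomorphism from a subgroup of finite index of `C`
to the multiplicative or to the additive group of `ℚ_p`. If there are no such points, then the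
closures of the orbits of `d` outside the fixed points are finitely many balls, which are torsors for
the `p`-adic integers, and the stabilizer of one of them in `C` acts by translations. These
homomorphisms are extended to `ℝ`, the transfer gives homomorphisms on `C`, and these give weights to
the factors of the words with product conjugate to `c`, as in the hand-in `PiecewiseAnalytic`.
-/

namespace Pool.Agent.Results.MP_16fe43_al.UltrametricActions

open Topology
open Pool.Agent.W2helper25.LS (LocSim TorsionGerms Unbounded Seq cons app SelfSim LocForm)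
open Pool.Agent.W2helper25.PA (LocAn)
open Pool.Agent.W2helper35.CY (CyclicCocycle pairing oddPairing)

universe u v w x y

/-- No idempotent and no invertible matrix over the group algebra of `Γ` over any commutative ring
pairs nontrivially with a cyclic cocycle which vanishes at the tuples with product `1`. -/
def Undetected (Γ : Type u) [Group Γ] : Prop :=
  ∀ (k : Type w) [CommRing k] (M : Type v) [AddCommGroup M] [Module k M] [Module ℚ M]
    (d : Type x) [Fintype d] [DecidableEq d] (n : ℕ) (ψ : List Γ → M),
    (∀ l : List Γ, l.prod = 1 → ψ l = 0) →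
      (CyclicCocycle (2 * n) ψ → ∀ e : Matrix d d (MonoidAlgebra k Γ), e * e = e →
        pairing ψ (2 * n) e = 0) ∧
      (CyclicCocycle (2 * n + 1) ψ → (∀ l l' : List Γ, ψ (l ++ 1 :: l') = 0) →
        ∀ u v : Matrix d d (MonoidAlgebra k Γ), u * v = 1 → v * u = 1 → oddPairing ψ n u v = 0)

/-- A subgroup of finite index of `H` acts by local similarities on a compact ultrametric space
without isolated points such that a power of `c` in this subgroup has unbounded factors. -/
def Stretched (H : Type u) [Group H] (c : H) : Prop :=
  ∃ (N : Subgroup H) (_ : N.FiniteIndex) (X : Type y) (_ : MetricSpace X) (_ : IsUltrametricDist X)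
    (_ : CompactSpace X) (_ : MulAction N X), LocSim N X ∧ (∀ x : X, (𝓝[≠] x).NeBot) ∧
      ∃ (m : ℕ) (hm : c ^ m ∈ N), Unbounded X (⟨c ^ m, hm⟩ : N)

/-- For some prime `p` a subgroup `N` of finite index of `H` acts on a compact open set of `p`-adic
numbers by locally analytic homeomorphisms such that no positive power of `c` in `N` acts trivially. -/
def AnalyticallyDetected (H : Type u) [Group H] (c : H) : Prop :=
  ∃ (N : Subgroup H) (_ : N.FiniteIndex) (p : ℕ) (_ : Fact p.Prime) (X : Set ℚ_[p])
    (_ : MulAction N X), IsOpen X ∧ IsCompact X ∧ LocAn N X ∧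
      ∀ (m : ℕ) (hm : c ^ m ∈ N), 0 < m → ∃ x : X, (⟨c ^ m, hm⟩ : N) • x ≠ x

theorem result :
    (∀ (Γ : Type u) [Group Γ], (∀ H : Subgroup Γ, H.FG → ∀ h : H, h ≠ 1 →
      Stretched.{u, y} H h ∨ AnalyticallyDetected H h) → Undetected.{u, v, w, x} Γ) ∧
    (∀ (Γ : Type u) [Group Γ], (∀ g : Γ, g ≠ 1 → ¬ IsOfFinOrder g) →
      (∀ (X : Type y) [MetricSpace X] [IsUltrametricDist X] [CompactSpace X]
        [MulAction Γ X], LocSim Γ X → (∀ x : X, (𝓝[≠] x).NeBot) →
        (∀ g : Γ, (∀ x : X, g • x = x) → g = 1) → TorsionGerms Γ X → Undetected.{u, v, w, x} Γ) ∧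
      (∀ (A : Type y) [Finite A] [Nontrivial A] (G : Subgroup (Equiv.Perm (Seq A))), SelfSim G →
        (∀ g ∈ G, IsOfFinOrder g) → ∀ (ρ : Γ →* Equiv.Perm (Seq A)),
        Function.Injective ρ → (∀ γ, LocForm G (ρ γ)) → Undetected.{u, v, w, x} Γ) ∧
      (∀ (p : ℕ) [Fact p.Prime] (X : Set ℚ_[p]) [MulAction Γ X],
        IsOpen X → IsCompact X → LocAn Γ X → (∀ g : Γ, (∀ x : X, g • x = x) → g = 1) →
        Undetected.{u, v, w, x} Γ)) := by
  have main : ∀ (Γ : Type u) [Group Γ], Pool.Agent.W2helper25.PA.HasHoms Γ →
      Undetected.{u, v, w, x} Γ := by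
    intro Γ _ hΓ k _ M _ _ _ d _ _ n ψ h0
    exact ⟨fun C e he => Pool.Agent.W2helper25.PA.even_of_homs hΓ C h0 e he,
      fun C hψ u v huv hvu => Pool.Agent.W2helper25.PA.odd_of_homs hΓ C h0 hψ u v huv hvu⟩
  have sub : ∀ (Γ : Type u) [Group Γ], (∀ g : Γ, g ≠ 1 → ¬ IsOfFinOrder g) →
      ∀ (H : Subgroup Γ) (c : H), c ≠ 1 → ¬ IsOfFinOrder c := by
    intro Γ _ htf H c hc h1
    apply htf (c : Γ) (fun h2 => hc (Subtype.ext h2))
    rw [isOfFinOrder_iff_pow_eq_one] at h1 ⊢
    obtain ⟨n, hn, h3⟩ := h1
    exact ⟨n, hn, by rw [← Subgroup.coe_pow, h3]; rfl⟩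
  have loc : ∀ (Γ : Type u) [Group Γ], (∀ g : Γ, g ≠ 1 → ¬ IsOfFinOrder g) →
      ∀ (X : Type y) [MetricSpace X] [IsUltrametricDist X] [CompactSpace X]
        [MulAction Γ X], LocSim Γ X → (∀ x : X, (𝓝[≠] x).NeBot) →
        (∀ g : Γ, (∀ x : X, g • x = x) → g = 1) → TorsionGerms Γ X →
        Undetected.{u, v, w, x} Γ := by
    intro Γ _ htf X _ _ _ _ h hp hf ht
    apply main
    intro H _ c hc
    obtain ⟨h', hb⟩ := Pool.Agent.W2helper25.LS.not_bdd_sub h hp ht hf H (sub Γ htf H c hc)
    rcases Pool.Agent.W2helper25.LS.hom_or_bdd h' hp c with h1 | h1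
    · exact absurd h1 hb
    · exact h1
  refine ⟨?_, fun Γ _ htf => ⟨?_, ?_, ?_⟩⟩
  · intro Γ _ hΓ
    apply main
    intro H hH c hc
    rcases hΓ H hH c hc with h1 | h1
    · obtain ⟨N, hN, X, i1, i2, i3, i4, h, hp, m, hm, hu⟩ := h1
      have hs : Pool.Agent.W2helper25.LS.Stretched.{u, y} H c :=
        ⟨N, hN, X, i1, i2, i3, i4, h, hp, m, hm, hu.not_bdd h hp⟩
      exact Pool.Agent.W2helper25.PA.hom_of_stretched hs
    · exact Pool.Agent.W2helper25.PA.Detected.hom h1
  · intro X _ _ _ _ h hp hf ht
    exact loc Γ htf X h hp hf ht
  · intro A _ _ G hG hT ρ hρ hf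
    letI : MulAction Γ (Seq A) := MulAction.compHom (Seq A) ρ
    have hf' : ∀ γ : Γ, LocForm G (fun x => γ • x) := hf
    apply loc Γ htf (Seq A) (Pool.Agent.W2helper25.LS.locSim_of_form hG hf')
      Pool.Agent.W2helper25.LS.seq_perfect
    · intro g hg
      apply hρ
      rw [map_one]
      exact Equiv.ext hg
    · exact Pool.Agent.W2helper25.LS.torsionGerms_of_form hG hT hf'
  · intro p _ X _ hX hK h hf
    apply main
    intro H _ c hc
    exact Pool.Agent.W2helper25.PA.Detected.hom
      (Pool.Agent.W2helper25.PA.detected_of_faithful hX hK h hf H (sub Γ htf H c hc))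

end Pool.Agent.Results.MP_16fe43_al.UltrametricActions
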